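import Pool.Agent.H.MP_7f6035_co.C
import Pool.Agent.H.MP_7f6035_co.D
import Pool.Agent.H.MP_7f6035_co.G

namespace Pool.Agent.Results.MP_7f6035_co.Full

open Pool.Agent.H.MP_7f6035_co

theorem result :
    (∀ (m : ℕ) (d : Fin m → ℕ), (∀ j, 0 < d j) → Acoptic (CrossProd d) (∑ j, d j)) ∧
      ¬ Acoptic SqOct 4 ∧ ∀ s ∈ hess, StarAcoptic s :=
  ⟨fun _ d hd => partA d hd, partB, partD⟩

end Pool.Agent.Results.MP_7f6035_co.Full
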